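import Pool.Agent.J6H91.TZ.Stm2

/-!
# Project TZ2: the energy estimate (`S_ENE`)
-/

set_option autoImplicit false

namespace Pool.Agent.J6H9.TZE

open Pool.Agent.J6H91.TZ Pool.Agent.J6H91.Cyc Filter Topology
open scoped ComplexConjugate

lemma prod_le_sum_pow {σ : Type} [Fintype σ] [Nonempty σ] (a : σ → ℝ) (ha : ∀ j, 0 ≤ a j) :
    ∏ j, a j ≤ ∑ j, a j ^ Fintype.card σ := by
  classical
  obtain ⟨j0, hj0⟩ := Finite.exists_max a
  calc ∏ j, a j ≤ ∏ _j : σ, a j0 := Finset.prod_le_prod (fun j _ => ha j) (fun j _ => hj0 j)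
    _ = a j0 ^ Fintype.card σ := by rw [Finset.prod_const, Finset.card_univ]
    _ ≤ ∑ j, a j ^ Fintype.card σ :=
        Finset.single_le_sum (f := fun j => a j ^ Fintype.card σ)
          (fun j _ => pow_nonneg (ha j) _) (Finset.mem_univ j0)

lemma dyadic_sum (β : ℝ) (hβ : 0 < β) (n : ℕ) (hn : 0 < n) :
    ∑ i ∈ Finset.range (Nat.log 2 (2 * n) + 1), ((2 : ℝ) ^ i / n) ^ β ≤
      (2 : ℝ) ^ β * (2 : ℝ) ^ β / ((2 : ℝ) ^ β - 1) := by
  have hn' : (0 : ℝ) < n := Nat.cast_pos.mpr hn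
  have hρ : (1 : ℝ) < (2 : ℝ) ^ β := Real.one_lt_rpow (by norm_num) hβ
  have hpow : ∀ i : ℕ, ((2 : ℝ) ^ i) ^ β = ((2 : ℝ) ^ β) ^ i := by
    intro i
    rw [← Real.rpow_natCast, ← Real.rpow_mul (by norm_num), mul_comm,
      Real.rpow_mul (by norm_num), Real.rpow_natCast]
  have h1 : ∀ i : ℕ, ((2 : ℝ) ^ i / n) ^ β = ((2 : ℝ) ^ β) ^ i / (n : ℝ) ^ β := by
    intro i
    rw [Real.div_rpow (by positivity) hn'.le, hpow]
  rw [Finset.sum_congr rfl (fun i _ => h1 i), ← Finset.sum_div, geom_sum_eq hρ.ne']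
  set ρ : ℝ := (2 : ℝ) ^ β with hρdef
  set L := Nat.log 2 (2 * n) with hL
  have h2 : (2 : ℝ) ^ L ≤ 2 * n := by
    have := Nat.pow_log_le_self 2 (x := 2 * n) (by omega)
    rw [← hL] at this
    exact_mod_cast this
  have h3 : ρ ^ L ≤ ρ * (n : ℝ) ^ β := by
    rw [← hpow]
    calc ((2 : ℝ) ^ L) ^ β ≤ (2 * (n : ℝ)) ^ β := Real.rpow_le_rpow (by positivity) h2 hβ.le
      _ = ρ * (n : ℝ) ^ β := by rw [Real.mul_rpow (by norm_num) hn'.le]
  have hnβ : 0 < (n : ℝ) ^ β := Real.rpow_pos_of_pos hn' β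
  rw [div_div, div_le_div_iff₀ (by nlinarith) (by linarith)]
  have h4 : ρ ^ (L + 1) ≤ ρ * ρ * (n : ℝ) ^ β := by
    rw [pow_succ]
    nlinarith
  nlinarith

lemma dyadic (γ : ℝ) (hγ0 : 0 ≤ γ) (hγ1 : γ < 1) : ∃ C : ℝ, 0 ≤ C ∧
    ∀ (C₁ : ℝ) (n : ℕ) (T : Finset ℝ) (D : ℝ → ℝ), 0 < n → (∀ s ∈ T, D s ≤ 2) →
      (∀ ε : ℝ, 0 ≤ ε → ((T.filter fun s => D s ≤ ε).card : ℝ) ≤ C₁ * (ε * n + 1)) →
      ∑ s ∈ T.filter (fun s => 1 / (n : ℝ) < D s), (D s) ^ (-γ) ≤ C * C₁ * n := by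
  set β : ℝ := 1 - γ with hβ
  have hβ0 : 0 < β := by linarith
  have hρ : (1 : ℝ) < (2 : ℝ) ^ β := Real.one_lt_rpow (by norm_num) hβ0
  refine ⟨3 * ((2 : ℝ) ^ β * (2 : ℝ) ^ β / ((2 : ℝ) ^ β - 1)), ?_, ?_⟩
  · have : 0 < (2 : ℝ) ^ β - 1 := by linarith
    positivity
  intro C₁ n T D hn hD2 hcnt
  have hn' : (0 : ℝ) < n := Nat.cast_pos.mpr hn
  have hC₁ : 0 ≤ C₁ := by
    have := hcnt 0 le_rfl
    have h0 : (0 : ℝ) ≤ ((T.filter fun s => D s ≤ 0).card : ℝ) := Nat.cast_nonneg _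
    nlinarith
  set L := Nat.log 2 (2 * n) with hL
  -- pointwise bound
  have hpt : ∀ s ∈ T.filter (fun s => 1 / (n : ℝ) < D s), (D s) ^ (-γ) ≤
      ∑ i ∈ Finset.range (L + 1), if D s ≤ 2 ^ (i + 1) / n then ((2 : ℝ) ^ i / n) ^ (-γ) else 0 := by
    intro s hs
    rw [Finset.mem_filter] at hs
    obtain ⟨hsT, hs1⟩ := hs
    have hex : ∃ i : ℕ, D s ≤ 2 ^ (i + 1) / n := by
      obtain ⟨i, hi⟩ := pow_unbounded_of_one_lt (D s * n) (one_lt_two)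
      refine ⟨i, ?_⟩
      rw [le_div_iff₀ hn']
      have h2i : (2 : ℝ) ^ i ≤ 2 ^ (i + 1) := pow_le_pow_right₀ (by norm_num) (Nat.le_succ i)
      linarith
    classical
    set i := Nat.find hex with hi
    have hi1 : D s ≤ 2 ^ (i + 1) / n := Nat.find_spec hex
    have hi2 : (2 : ℝ) ^ i / n < D s := by
      rcases Nat.eq_zero_or_pos i with h0 | h0
      · rw [h0, pow_zero]
        exact hs1
      · have := Nat.find_min hex (m := i - 1) (by omega)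
        rw [not_le] at this
        rwa [show i - 1 + 1 = i by omega] at this
    have hi3 : i < L + 1 := by
      have h1 : (2 : ℝ) ^ i < 2 * n := by
        have h2 := lt_of_lt_of_le hi2 (hD2 s hsT)
        rw [div_lt_iff₀ hn'] at h2
        exact h2
      have h2 : 2 ^ i < 2 * n := by exact_mod_cast h1
      have h3 : i ≤ L := Nat.le_log_of_pow_le (by norm_num) h2.le
      omega
    have hupos : (0 : ℝ) < (2 : ℝ) ^ i / n := by positivity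
    calc (D s) ^ (-γ) ≤ ((2 : ℝ) ^ i / n) ^ (-γ) :=
          Real.rpow_le_rpow_of_nonpos hupos hi2.le (by linarith)
      _ = (if D s ≤ 2 ^ (i + 1) / n then ((2 : ℝ) ^ i / n) ^ (-γ) else 0) := by rw [if_pos hi1]
      _ ≤ _ := Finset.single_le_sum (f := fun i => if D s ≤ 2 ^ (i + 1) / n then
            ((2 : ℝ) ^ i / n) ^ (-γ) else 0) (fun i _ => by
              split_ifs
              · positivity
              · exact le_rfl) (Finset.mem_range.mpr hi3)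
  calc ∑ s ∈ T.filter (fun s => 1 / (n : ℝ) < D s), (D s) ^ (-γ)
      ≤ ∑ s ∈ T.filter (fun s => 1 / (n : ℝ) < D s), ∑ i ∈ Finset.range (L + 1),
          (if D s ≤ 2 ^ (i + 1) / n then ((2 : ℝ) ^ i / n) ^ (-γ) else 0) := Finset.sum_le_sum hpt
    _ ≤ ∑ s ∈ T, ∑ i ∈ Finset.range (L + 1),
          (if D s ≤ 2 ^ (i + 1) / n then ((2 : ℝ) ^ i / n) ^ (-γ) else 0) := by
        refine Finset.sum_le_sum_of_subset_of_nonneg (Finset.filter_subset _ _) fun s _ _ => ?_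
        refine Finset.sum_nonneg fun i _ => ?_
        split_ifs
        · positivity
        · exact le_rfl
    _ = ∑ i ∈ Finset.range (L + 1), ((2 : ℝ) ^ i / n) ^ (-γ) *
          ((T.filter fun s => D s ≤ 2 ^ (i + 1) / n).card : ℝ) := by
        rw [Finset.sum_comm]
        refine Finset.sum_congr rfl fun i _ => ?_
        rw [← Finset.sum_filter, Finset.sum_const, nsmul_eq_mul, mul_comm]
    _ ≤ ∑ i ∈ Finset.range (L + 1), 3 * C₁ * n * ((2 : ℝ) ^ i / n) ^ β := by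
        refine Finset.sum_le_sum fun i _ => ?_
        have hupos : (0 : ℝ) < (2 : ℝ) ^ i / n := by positivity
        have h1 := hcnt (2 ^ (i + 1) / n) (by positivity)
        have h2 : (2 : ℝ) ^ (i + 1) / n * n = 2 ^ (i + 1) := by field_simp
        rw [h2] at h1
        have h3 : (1 : ℝ) ≤ 2 ^ i := one_le_pow₀ (by norm_num)
        have h4 : C₁ * ((2 : ℝ) ^ (i + 1) + 1) ≤ 3 * C₁ * 2 ^ i := by
          rw [pow_succ]
          nlinarith
        have h5 : ((2 : ℝ) ^ i / n) ^ β = (2 : ℝ) ^ i / n * ((2 : ℝ) ^ i / n) ^ (-γ) := by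
          rw [hβ, sub_eq_add_neg, Real.rpow_add hupos, Real.rpow_one]
        have h6 : 0 ≤ ((2 : ℝ) ^ i / n) ^ (-γ) := by positivity
        calc ((2 : ℝ) ^ i / n) ^ (-γ) * ((T.filter fun s => D s ≤ 2 ^ (i + 1) / n).card : ℝ)
            ≤ ((2 : ℝ) ^ i / n) ^ (-γ) * (3 * C₁ * 2 ^ i) :=
              mul_le_mul_of_nonneg_left (h1.trans h4) h6
          _ = 3 * C₁ * n * ((2 : ℝ) ^ i / n) ^ β := by
              rw [h5]
              field_simp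
    _ = 3 * C₁ * n * ∑ i ∈ Finset.range (L + 1), ((2 : ℝ) ^ i / n) ^ β := by
        rw [Finset.mul_sum]
    _ ≤ 3 * C₁ * n * ((2 : ℝ) ^ β * (2 : ℝ) ^ β / ((2 : ℝ) ^ β - 1)) :=
        mul_le_mul_of_nonneg_left (dyadic_sum β hβ0 n hn) (by positivity)
    _ = _ := by ring

/-- the kernel -/
noncomputable def G (t : ℝ) (K : ℕ) (ζ : ℂ) : ℂ :=
  ∑ k ∈ Finset.range K, ((((k : ℝ) + 1) ^ (-t) : ℝ) : ℂ) * ζ ^ k

lemma norm_G_le (t : ℝ) (ht : 0 < t) (K : ℕ) (ζ : ℂ) (hζ : ‖ζ‖ = 1) : ‖G t K ζ‖ ≤ K := by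
  unfold G
  refine (norm_sum_le _ _).trans ?_
  calc ∑ k ∈ Finset.range K, ‖((((k : ℝ) + 1) ^ (-t) : ℝ) : ℂ) * ζ ^ k‖
      ≤ ∑ _k ∈ Finset.range K, (1 : ℝ) := by
        refine Finset.sum_le_sum fun k _ => ?_
        rw [norm_mul, norm_pow, hζ, one_pow, mul_one, Complex.norm_real, Real.norm_eq_abs,
          abs_of_nonneg (by positivity)]
        exact Real.rpow_le_one_of_one_le_of_nonpos (by
          have : (0 : ℝ) ≤ k := Nat.cast_nonneg k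
          linarith) (by linarith)
    _ = K := by simp

lemma energy_eq {σ : Type} [Fintype σ] [DecidableEq σ] (t : ℝ) (K n : ℕ) (T : Finset ℝ)
    (z : ℝ → σ → ℂ) :
    ((∑ κ ∈ Fintype.piFinset (fun _ : σ => Finset.range K), (∏ j, ((κ j : ℝ) + 1) ^ t)⁻¹ *
      ‖(n : ℂ)⁻¹ * ∑ s ∈ T, ∏ j, z s j ^ κ j‖ ^ 2 : ℝ) : ℂ) =
      ((n : ℂ)⁻¹) ^ 2 * ∑ s ∈ T, ∑ s' ∈ T, ∏ j, G t K (z s j * conj (z s' j)) := by
  have h1 : ∀ s s' : ℝ, ∏ j, G t K (z s j * conj (z s' j)) =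
      ∑ κ ∈ Fintype.piFinset (fun _ : σ => Finset.range K),
        ∏ j, (((((κ j : ℕ) : ℝ) + 1) ^ (-t) : ℝ) : ℂ) * (z s j * conj (z s' j)) ^ κ j := by
    intro s s'
    unfold G
    rw [Finset.prod_univ_sum]
  rw [Finset.sum_congr rfl fun s _ => Finset.sum_congr rfl fun s' _ => h1 s s']
  have h2 : ∀ s : ℝ, ∑ s' ∈ T, ∑ κ ∈ Fintype.piFinset (fun _ : σ => Finset.range K),
        ∏ j, (((((κ j : ℕ) : ℝ) + 1) ^ (-t) : ℝ) : ℂ) * (z s j * conj (z s' j)) ^ κ j =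
      ∑ κ ∈ Fintype.piFinset (fun _ : σ => Finset.range K), ∑ s' ∈ T,
        ∏ j, (((((κ j : ℕ) : ℝ) + 1) ^ (-t) : ℝ) : ℂ) * (z s j * conj (z s' j)) ^ κ j :=
    fun s => Finset.sum_comm
  rw [Finset.sum_congr rfl fun s _ => h2 s, Finset.sum_comm, Finset.mul_sum, Complex.ofReal_sum]
  refine Finset.sum_congr rfl fun κ _ => ?_
  have h3 : ((‖(n : ℂ)⁻¹ * ∑ s ∈ T, ∏ j, z s j ^ κ j‖ ^ 2 : ℝ) : ℂ) =
      ((n : ℂ)⁻¹) ^ 2 * ∑ s ∈ T, ∑ s' ∈ T, ∏ j, (z s j * conj (z s' j)) ^ κ j := by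
    rw [← Complex.normSq_eq_norm_sq, ← Complex.mul_conj]
    rw [map_mul, map_sum, map_inv₀, Complex.conj_natCast]
    have : (∑ s ∈ T, ∏ j, z s j ^ κ j) * ∑ s' ∈ T, conj (∏ j, z s' j ^ κ j) =
        ∑ s ∈ T, ∑ s' ∈ T, ∏ j, (z s j * conj (z s' j)) ^ κ j := by
      rw [Finset.sum_mul_sum]
      refine Finset.sum_congr rfl fun s _ => Finset.sum_congr rfl fun s' _ => ?_
      rw [map_prod, ← Finset.prod_mul_distrib]
      refine Finset.prod_congr rfl fun j _ => ?_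
      rw [map_pow, mul_pow]
    rw [← this]
    ring
  have h4 : (((∏ j, ((κ j : ℝ) + 1) ^ t)⁻¹ : ℝ) : ℂ) =
      ∏ j, (((((κ j : ℕ) : ℝ) + 1) ^ (-t) : ℝ) : ℂ) := by
    rw [← Finset.prod_inv_distrib, Complex.ofReal_prod]
    refine Finset.prod_congr rfl fun j _ => ?_
    rw [Real.rpow_neg (by positivity)]
  rw [Complex.ofReal_mul, h3, h4]
  rw [mul_left_comm]
  congr 1
  rw [Finset.mul_sum]
  refine Finset.sum_congr rfl fun s _ => ?_
  rw [Finset.mul_sum]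
  refine Finset.sum_congr rfl fun s' _ => ?_
  rw [← Finset.prod_mul_distrib]

/-- the sum over the second point -/
lemma inner_bound (hker : S_KER) (t : ℝ) (ht0 : 0 < t) (ht1 : t < 1) (d : ℕ) (_hd : 0 < d)
    (htd : (1 - t) * d < 1) : ∃ C₄ : ℝ, 0 ≤ C₄ ∧ ∀ (C₁ : ℝ) (K n : ℕ) (T : Finset ℝ) (w : ℝ → ℂ)
      (a : ℂ), 0 < n → ‖a‖ = 1 → (∀ s ∈ T, ‖w s‖ = 1) →
      (∀ ε : ℝ, 0 ≤ ε → ((T.filter fun s' => ‖w s' - a‖ ≤ ε).card : ℝ) ≤ C₁ * (ε * n + 1)) →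
      ∑ s' ∈ T, ‖G t K (a * conj (w s'))‖ ^ d ≤ C₁ * (2 * (K : ℝ) ^ d + C₄ * n) := by
  obtain ⟨C₂, hC₂⟩ := hker t ht0 ht1
  obtain ⟨C₃, hC₃0, hC₃⟩ := dyadic ((1 - t) * d)
    (mul_nonneg (by linarith) (Nat.cast_nonneg d)) htd
  refine ⟨|C₂| ^ d * C₃, by positivity, ?_⟩
  intro C₁ K n T w a hn ha hw hcnt
  have hn' : (0 : ℝ) < n := Nat.cast_pos.mpr hn
  have hC₁ : 0 ≤ C₁ := by
    have := hcnt 0 le_rfl
    have h0 : (0 : ℝ) ≤ ((T.filter fun s => ‖w s - a‖ ≤ 0).card : ℝ) := Nat.cast_nonneg _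
    nlinarith
  have hD : ∀ s ∈ T, ‖1 - a * conj (w s)‖ = ‖w s - a‖ := by
    intro s hs
    have h1 : w s * conj (w s) = 1 := by
      rw [Complex.mul_conj, Complex.normSq_eq_norm_sq, hw s hs]
      norm_num
    have h2 : 1 - a * conj (w s) = (w s - a) * conj (w s) := by
      rw [sub_mul, h1]
    rw [h2, norm_mul, RCLike.norm_conj, hw s hs, mul_one]
  have hζ : ∀ s ∈ T, ‖a * conj (w s)‖ = 1 := by
    intro s hs
    rw [norm_mul, RCLike.norm_conj, hw s hs, ha, mul_one]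
  rw [← Finset.sum_filter_add_sum_filter_not T (fun s' => ‖w s' - a‖ ≤ 1 / (n : ℝ))]
  have hA : ∑ s' ∈ T.filter (fun s' => ‖w s' - a‖ ≤ 1 / (n : ℝ)),
      ‖G t K (a * conj (w s'))‖ ^ d ≤ C₁ * (2 * (K : ℝ) ^ d) := by
    calc ∑ s' ∈ T.filter (fun s' => ‖w s' - a‖ ≤ 1 / (n : ℝ)), ‖G t K (a * conj (w s'))‖ ^ d
        ≤ ∑ _s' ∈ T.filter (fun s' => ‖w s' - a‖ ≤ 1 / (n : ℝ)), (K : ℝ) ^ d := by
          refine Finset.sum_le_sum fun s' hs' => ?_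
          exact pow_le_pow_left₀ (norm_nonneg _)
            (norm_G_le t ht0 K _ (hζ s' (Finset.mem_filter.mp hs').1)) d
      _ = ((T.filter fun s' => ‖w s' - a‖ ≤ 1 / (n : ℝ)).card : ℝ) * (K : ℝ) ^ d := by
          rw [Finset.sum_const, nsmul_eq_mul]
      _ ≤ (C₁ * (1 / (n : ℝ) * n + 1)) * (K : ℝ) ^ d :=
          mul_le_mul_of_nonneg_right (hcnt _ (by positivity)) (by positivity)
      _ = C₁ * (2 * (K : ℝ) ^ d) := by
          rw [one_div, inv_mul_cancel₀ hn'.ne']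
          ring
  have hB : ∑ s' ∈ T.filter (fun s' => ¬ ‖w s' - a‖ ≤ 1 / (n : ℝ)),
      ‖G t K (a * conj (w s'))‖ ^ d ≤ C₁ * (|C₂| ^ d * C₃ * n) := by
    have hfil : T.filter (fun s' => ¬ ‖w s' - a‖ ≤ 1 / (n : ℝ)) =
        T.filter (fun s' => 1 / (n : ℝ) < ‖w s' - a‖) := by
      refine Finset.filter_congr fun s _ => ?_
      exact not_le
    rw [hfil]
    calc ∑ s' ∈ T.filter (fun s' => 1 / (n : ℝ) < ‖w s' - a‖), ‖G t K (a * conj (w s'))‖ ^ d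
        ≤ ∑ s' ∈ T.filter (fun s' => 1 / (n : ℝ) < ‖w s' - a‖),
            |C₂| ^ d * ‖w s' - a‖ ^ (-((1 - t) * d)) := by
          refine Finset.sum_le_sum fun s' hs' => ?_
          obtain ⟨hsT, hs1⟩ := Finset.mem_filter.mp hs'
          have hpos : 0 < ‖w s' - a‖ := lt_trans (by positivity) hs1
          have hne : a * conj (w s') ≠ 1 := by
            intro h
            have := hD s' hsT
            rw [h, sub_self, norm_zero] at this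
            exact hpos.ne this
          have h1 := hC₂ K _ (hζ s' hsT) hne
          rw [hD s' hsT] at h1
          have h2 : ‖G t K (a * conj (w s'))‖ ≤ |C₂| * ‖w s' - a‖ ^ (t - 1) := by
            refine le_trans h1 (mul_le_mul_of_nonneg_right (le_abs_self _) (by positivity))
          calc ‖G t K (a * conj (w s'))‖ ^ d ≤ (|C₂| * ‖w s' - a‖ ^ (t - 1)) ^ d :=
                pow_le_pow_left₀ (norm_nonneg _) h2 d
            _ = |C₂| ^ d * ‖w s' - a‖ ^ (-((1 - t) * d)) := by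
                rw [mul_pow]
                congr 1
                rw [← Real.rpow_natCast, ← Real.rpow_mul hpos.le]
                congr 1
                ring
      _ = |C₂| ^ d * ∑ s' ∈ T.filter (fun s' => 1 / (n : ℝ) < ‖w s' - a‖),
            ‖w s' - a‖ ^ (-((1 - t) * d)) := by rw [Finset.mul_sum]
      _ ≤ |C₂| ^ d * (C₃ * C₁ * n) := by
          refine mul_le_mul_of_nonneg_left ?_ (by positivity)
          refine hC₃ C₁ n T (fun s => ‖w s - a‖) hn ?_ hcnt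
          intro s hs
          calc ‖w s - a‖ ≤ ‖w s‖ + ‖a‖ := norm_sub_le _ _
            _ = 2 := by rw [hw s hs, ha]; norm_num
      _ = C₁ * (|C₂| ^ d * C₃ * n) := by ring
  calc _ ≤ C₁ * (2 * (K : ℝ) ^ d) + C₁ * (|C₂| ^ d * C₃ * n) := add_le_add hA hB
    _ = _ := by ring

theorem ene : S_ENE := by
  intro hker σ _ _ t ht0 ht1 htd C₁
  -- reduction to the box
  have hbox : ∀ (K n : ℕ) (T : Finset ℝ) (z : ℝ → σ → ℂ) (S : Finset (σ →₀ ℕ)),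
      (∀ k ∈ S, ∀ j, k j < K) →
      ∑ k ∈ S, (weight t k)⁻¹ * ‖(n : ℂ)⁻¹ * ∑ s ∈ T, ∏ j, z s j ^ k j‖ ^ 2 ≤
        ∑ κ ∈ Fintype.piFinset (fun _ : σ => Finset.range K), (∏ j, ((κ j : ℝ) + 1) ^ t)⁻¹ *
          ‖(n : ℂ)⁻¹ * ∑ s ∈ T, ∏ j, z s j ^ κ j‖ ^ 2 := by
    intro K n T z S hS
    have h1 : ∑ k ∈ S, (weight t k)⁻¹ * ‖(n : ℂ)⁻¹ * ∑ s ∈ T, ∏ j, z s j ^ k j‖ ^ 2 =
        ∑ κ ∈ S.image (fun k : σ →₀ ℕ => (k : σ → ℕ)), (∏ j, ((κ j : ℝ) + 1) ^ t)⁻¹ *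
          ‖(n : ℂ)⁻¹ * ∑ s ∈ T, ∏ j, z s j ^ κ j‖ ^ 2 := by
      rw [Finset.sum_image (fun a _ b _ h => DFunLike.coe_injective h)]
      rfl
    rw [h1]
    refine Finset.sum_le_sum_of_subset_of_nonneg ?_ fun κ _ _ => by positivity
    intro κ hκ
    obtain ⟨k, hk, rfl⟩ := Finset.mem_image.mp hκ
    rw [Fintype.mem_piFinset]
    exact fun j => Finset.mem_range.mpr (hS k hk j)
  rcases isEmpty_or_nonempty σ with hσ | hσ
  · -- no variables
    refine ⟨C₁ ^ 2, fun K => ⟨1, one_pos, ?_⟩⟩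
    intro n hn T z _ hcard _ S hS
    refine (hbox K n T z S hS).trans ?_
    have hn' : (0 : ℝ) < n := Nat.cast_pos.mpr hn
    have h1 : ∀ κ ∈ Fintype.piFinset (fun _ : σ => Finset.range K), (∏ j, ((κ j : ℝ) + 1) ^ t)⁻¹ *
          ‖(n : ℂ)⁻¹ * ∑ s ∈ T, ∏ j, z s j ^ κ j‖ ^ 2 = ((T.card : ℝ) / n) ^ 2 := by
      intro κ _
      simp only [Finset.univ_eq_empty, Finset.prod_empty, inv_one, one_mul, Finset.sum_const,
        nsmul_eq_mul, mul_one]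
      rw [norm_mul, norm_inv, Complex.norm_natCast, Complex.norm_natCast]
      ring
    rw [Finset.sum_congr rfl h1, Finset.sum_const]
    have h2 : (Fintype.piFinset (fun _ : σ => Finset.range K)).card ≤ 1 := by
      rw [Fintype.card_piFinset]
      simp
    have h3 : ((T.card : ℝ) / n) ^ 2 ≤ C₁ ^ 2 := by
      refine pow_le_pow_left₀ (by positivity) ?_ 2
      rw [div_le_iff₀ hn']
      exact hcard
    rw [nsmul_eq_mul]
    calc ((Fintype.piFinset (fun _ : σ => Finset.range K)).card : ℝ) * ((T.card : ℝ) / n) ^ 2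
        ≤ 1 * ((T.card : ℝ) / n) ^ 2 :=
          mul_le_mul_of_nonneg_right (by exact_mod_cast h2) (by positivity)
      _ ≤ C₁ ^ 2 := by rw [one_mul]; exact h3
  · set d := Fintype.card σ with hd
    have hd0 : 0 < d := Fintype.card_pos
    obtain ⟨C₄, hC₄0, hC₄⟩ := inner_bound hker t ht0 ht1 d hd0 htd
    refine ⟨d * (C₁ * (C₁ * (2 + C₄))), fun K => ⟨K ^ d + 1, Nat.succ_pos _, ?_⟩⟩
    intro n hn T z hz hcard hcnt S hS
    refine (hbox K n T z S hS).trans ?_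
    have hn0 : 0 < n := by omega
    have hn' : (0 : ℝ) < n := Nat.cast_pos.mpr hn0
    have hC₁ : 0 ≤ C₁ := by
      have h0 : (0 : ℝ) ≤ (T.card : ℝ) := Nat.cast_nonneg _
      by_contra hneg
      push Not at hneg
      nlinarith
    have hKn : (K : ℝ) ^ d ≤ n := by
      have : K ^ d ≤ n := by omega
      exact_mod_cast this
    -- the energy
    have hE : ∑ κ ∈ Fintype.piFinset (fun _ : σ => Finset.range K), (∏ j, ((κ j : ℝ) + 1) ^ t)⁻¹ *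
          ‖(n : ℂ)⁻¹ * ∑ s ∈ T, ∏ j, z s j ^ κ j‖ ^ 2 ≤
        ((n : ℝ)⁻¹) ^ 2 * ∑ s ∈ T, ∑ s' ∈ T, ∏ j, ‖G t K (z s j * conj (z s' j))‖ := by
      have h1 := energy_eq t K n T z
      have h2 : ∑ κ ∈ Fintype.piFinset (fun _ : σ => Finset.range K),
          (∏ j, ((κ j : ℝ) + 1) ^ t)⁻¹ * ‖(n : ℂ)⁻¹ * ∑ s ∈ T, ∏ j, z s j ^ κ j‖ ^ 2 ≤
          ‖((n : ℂ)⁻¹) ^ 2 * ∑ s ∈ T, ∑ s' ∈ T, ∏ j, G t K (z s j * conj (z s' j))‖ := by
        rw [← h1, Complex.norm_real]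
        exact Real.le_norm_self _
      refine h2.trans ?_
      rw [norm_mul, norm_pow, norm_inv, Complex.norm_natCast]
      refine mul_le_mul_of_nonneg_left ?_ (by positivity)
      refine (norm_sum_le _ _).trans (Finset.sum_le_sum fun s _ => ?_)
      refine (norm_sum_le _ _).trans (Finset.sum_le_sum fun s' _ => ?_)
      rw [norm_prod]
    refine hE.trans ?_
    have hF : ∑ s ∈ T, ∑ s' ∈ T, ∏ j, ‖G t K (z s j * conj (z s' j))‖ ≤
        ∑ _s ∈ T, ∑ _j : σ, C₁ * (2 * (K : ℝ) ^ d + C₄ * n) := by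
      refine Finset.sum_le_sum fun s hs => ?_
      calc ∑ s' ∈ T, ∏ j, ‖G t K (z s j * conj (z s' j))‖
          ≤ ∑ s' ∈ T, ∑ j, ‖G t K (z s j * conj (z s' j))‖ ^ d :=
            Finset.sum_le_sum fun s' _ => prod_le_sum_pow _ fun j => norm_nonneg _
        _ = ∑ j, ∑ s' ∈ T, ‖G t K (z s j * conj (z s' j))‖ ^ d := Finset.sum_comm
        _ ≤ ∑ _j : σ, C₁ * (2 * (K : ℝ) ^ d + C₄ * n) := by
            refine Finset.sum_le_sum fun j _ => ?_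
            exact hC₄ C₁ K n T (fun s' => z s' j) (z s j) hn0 (hz s hs j)
              (fun s' hs' => hz s' hs' j) (hcnt s hs j)
    have hsum : ∑ _s ∈ T, ∑ _j : σ, C₁ * (2 * (K : ℝ) ^ d + C₄ * n) =
        (T.card : ℝ) * (d * (C₁ * (2 * (K : ℝ) ^ d + C₄ * n))) := by
      rw [Finset.sum_const, Finset.sum_const, Finset.card_univ, nsmul_eq_mul, nsmul_eq_mul]
    rw [hsum] at hF
    have hG : (T.card : ℝ) * (d * (C₁ * (2 * (K : ℝ) ^ d + C₄ * n))) ≤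
        (C₁ * n) * (d * (C₁ * (2 * n + C₄ * n))) := by
      refine mul_le_mul hcard ?_ (by positivity) (by positivity)
      refine mul_le_mul_of_nonneg_left ?_ (by positivity)
      refine mul_le_mul_of_nonneg_left ?_ hC₁
      linarith
    calc ((n : ℝ)⁻¹) ^ 2 * ∑ s ∈ T, ∑ s' ∈ T, ∏ j, ‖G t K (z s j * conj (z s' j))‖
        ≤ ((n : ℝ)⁻¹) ^ 2 * ((C₁ * n) * (d * (C₁ * (2 * n + C₄ * n)))) :=
          mul_le_mul_of_nonneg_left (hF.trans hG) (by positivity)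
      _ = d * (C₁ * (C₁ * (2 + C₄))) := by
          field_simp

end Pool.Agent.J6H9.TZE
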